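import Pool.Agent.N174.Lef.PFin

/-!
# A Lefschetz theorem for the standard conjecture of Hodge type

Let `(Y, D)` and `(Z, B)` be polarized varieties over an algebraically closed field (of any
characteristic) which satisfy the hard Lefschetz theorem and the standard conjecture of Lefschetz
type. Let `f : X ⟶ Y` be a morphism such that `f_* 1 = c D^m` with `c > 0` (for example the inclusion
of a complete intersection of multiples of `D`, or a finite covering of it), and such that the
vanishing cohomology `E` of `f` (the kernel of the push-forward) is in the middle degree and
irreducible under all subgroups of finite index of a Galois group or monodromy group `Γ`. Suppose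
that some `g ∈ Γ` acts trivially on the cohomology of `Y` and of `Z` and by a Picard-Lefschetz
formula on `E`. Then the standard conjecture of Hodge type for `Y ^ n × Z` implies the standard
conjecture of Hodge type (and also the conjecture D) for `X ^ n × Z`, in all codimensions. There is
no condition on `n` if the dimension of `X` is odd, and if it is even the condition is `n < dim E`.
It is not assumed that the cohomology of `Y` or `Z` is algebraic, and no conjecture is assumed for
`X`: the hard Lefschetz theorem and the Lefschetz standard conjecture for `X` are deduced from those
for `Y`.

For example, let `X` be the generic member of a Lefschetz pencil of sections of `Y` by a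
sufficiently ample multiple of `D` (or of a family of double coverings of `Y` with a node), and let
`Y` and `Z` be smooth projective varieties over the base field of the pencil.

The idea: an algebraic class on `X ^ n × Z` is semi-invariant under a subgroup of finite index. By
the invariant theory of the symplectic and orthogonal groups its contractions with products of
vanishing classes are combinations of algebraic classes on `Y ^ n × Z` with coefficients which are
products of values of the intersection form on `E`. The value of the form of the Hodge standard
conjecture on the class is the sum of the values, on algebraic classes on `Y ^ n × Z`, of forms which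
are positive combinations of compositions of the form of the Hodge standard conjecture with
algebraic operators: the matrix of the scalar products of the invariants of `E` is positive
semidefinite, and the pull-back of the form of `X` to `Y` is the form of `Y` composed with an
algebraic operator with nonnegative rational eigenvalues.
-/

open CategoryTheory AlgebraicGeometry Pool.Agent.H914 Pool.Agent.N174.Lef.Pol

universe u v w

namespace Pool.Agent.Results.MP_361a6f_ag.LefschetzHodgeType

/-- **The Lefschetz theorem for the standard conjecture of Hodge type.** -/
theorem result {k : Type u} [Field k] {𝒱 : VarClass k} {ops : CycleOps 𝒱}
    {W : WeilCohomology.{u, v} ops} {Γ : Type w} [Group Γ] {χ : Γ →* W.Kˣ}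
    {X Y Z V V' : PVar W Γ} {n : ℕ} {f : X.X ⟶ Y.X} (hX : IsGalois χ X) (hY : IsGalois χ Y)
    (h : IsLefschetz X Y f) (hn : HasNode χ X Y Z f) (hK : LargeIfEven W f n)
    (hLY : LefschetzStd Y) (hLZ : LefschetzStd Z) (hV : IsPowProd X Z n V) (hgV : IsGalois χ V)
    (hV' : IsPowProd Y Z n V') (hH : HodgeType W V'.X V'.D) :
    HodgeType W V.X V.D ∧ HomEqNum W V.X :=
  pol_hodge hX hY h hn hK hLY hLZ hV hgV hV' hH

end Pool.Agent.Results.MP_361a6f_ag.LefschetzHodgeType
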