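import Pool.Agent.N174.Lef.Twr

/-!
# A Lefschetz theorem for the Tate conjecture

Let `f : X ⟶ Y` be a morphism of smooth projective varieties such that the vanishing cohomology
`E` of `f` (the kernel of the push-forward) is in the middle degree and irreducible under all
subgroups of finite index of a Galois group (or monodromy group) `Γ`, and such that some `g ∈ Γ`
acts trivially on the cohomology of `Y` and of `Z`, and by a Picard-Lefschetz formula on `E`. Then
the Tate conjecture for `Y ^ (n + 1) × Z` implies the Tate conjecture for `X ^ (n + 1) × Z`, in all
codimensions. There is no condition on `n` if the dimension of `X` is odd, and if it is even the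
condition is `n + 1 < dim E`. The theorem can be iterated: `X` may be the top of a tower of such
morphisms over `Y`. Nothing is assumed on the cohomology of `Y` and `Z` (which is in general far
from being algebraic), and no standard conjecture is used: it is not assumed that the projector
of the cohomology of `X` onto `E` is algebraic, this is a part of what is proved.

For example, let `Y` and `Z` be smooth projective varieties over a finitely generated field `F` of
characteristic zero, and let `X` be the generic member of a Lefschetz pencil of sections of `Y` by
a sufficiently ample divisor, over `F(t)`, or the generic member of a pencil of double coverings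
of `Y` with a node. Here `E` is the usual vanishing cohomology, the Picard-Lefschetz
transformations act on `E` and act trivially on the cohomology of `Y` and `Z`, and the
equivariant map `s` is given by the weak and the hard Lefschetz theorem (resp. by `1 / 2` times the
push-forward). The same is true for all members of the pencil over `F` outside a thin set.
-/

open CategoryTheory AlgebraicGeometry Pool.Agent.H914 Pool.Agent.TH125.Gal Pool.Agent.N174.Lef

universe u v w

namespace Pool.Agent.N174.Old.LefschetzTowers

/-- **The Lefschetz theorem for the Tate conjecture.** -/
theorem result {k : Type u} [Field k] {𝒱 : VarClass k} {ops : CycleOps 𝒱}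
    {W : WeilCohomology.{u, v} ops} {Γ : Type w} [Group Γ] {χ : Γ →* W.Kˣ}
    {X Y Z V V' : GVar W Γ} {n : ℕ} (hY : IsGaloisVar χ Y) (hZ : IsGaloisVar χ Z)
    (h : LefschetzTower χ Z (n + 1) Y X) (hYZ : IsPowProd Y n Z V') (hT : TateConjecture χ V')
    (hXZ : IsPowProd X n Z V) : TateConjecture χ V :=
  tate_tower hY hZ h hYZ hT hXZ

end Pool.Agent.N174.Old.LefschetzTowers
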